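import Mathlib

namespace Pool.Agent.Results.MP_1004d8_al.Affine

/-- The affine map `x ↦ g * α x`, as a permutation of `G`. -/
def aff {G : Type} [Group G] (g : G) (α : MulAut G) : Equiv.Perm G :=
  α.toEquiv.trans (Equiv.mulLeft g)

/-- The commuting probability. -/
noncomputable def cp (G : Type) [Group G] : ℝ :=
  (Nat.card {p : G × G // p.1 * p.2 = p.2 * p.1} : ℝ) / (Nat.card G : ℝ) ^ 2

@[ext] structure A (p : ℕ) where
  a : (ZMod p)ˣ
  b : ZMod p

variable {p : ℕ}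

instance : Mul (A p) := ⟨fun x y => ⟨x.a * y.a, x.b + x.a * y.b⟩⟩
instance : One (A p) := ⟨⟨1, 0⟩⟩
instance : Inv (A p) := ⟨fun x => ⟨x.a⁻¹, -(x.a⁻¹ : (ZMod p)ˣ) * x.b⟩⟩
@[simp] lemma mul_a (x y : A p) : (x * y).a = x.a * y.a := rfl
@[simp] lemma mul_b (x y : A p) : (x * y).b = x.b + x.a * y.b := rfl
@[simp] lemma one_a : (1 : A p).a = 1 := rfl
@[simp] lemma one_b : (1 : A p).b = 0 := rfl
@[simp] lemma inv_a (x : A p) : (x⁻¹).a = x.a⁻¹ := rfl
@[simp] lemma inv_b (x : A p) : (x⁻¹).b = -(x.a⁻¹ : (ZMod p)ˣ) * x.b := rfl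

instance : Group (A p) := Group.ofLeftAxioms
  (fun x y z => by ext <;> simp [mul_assoc, mul_add, add_assoc])
  (fun x => by ext <;> simp) (fun x => by ext <;> simp)

def eq (p : ℕ) : A p ≃ (ZMod p)ˣ × ZMod p :=
  ⟨fun x => (x.a, x.b), fun y => ⟨y.1, y.2⟩, fun _ => rfl, fun _ => rfl⟩

lemma card_A [Fact p.Prime] : Nat.card (A p) = (p - 1) * p := by
  rw [Nat.card_congr (eq p), Nat.card_prod, Nat.card_zmod, Nat.card_eq_fintype_card,
    ZMod.card_units]

instance [Fact p.Prime] : Finite (A p) := Finite.of_equiv _ (eq p).symm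

lemma ord [Fact p.Prime] : ∃ (g : A p) (α : MulAut (A p)), Nat.card (A p) ≤ orderOf (aff g α) := by
  obtain ⟨c, hc⟩ := IsCyclic.exists_ofOrder_eq_natCard (α := (ZMod p)ˣ)
  let u : A p := ⟨1, 1⟩
  let v : A p := ⟨c, 0⟩
  refine ⟨u * v⁻¹, MulAut.conj v, ?_⟩
  have h1 : ∀ (k : ℕ) (x : A p), (aff (u * v⁻¹) (MulAut.conj v) ^ k) x = u ^ k * x * (v ^ k)⁻¹ := by
    intro k
    induction k with
    | zero => simp
    | succ k ih =>
      intro x
      rw [pow_succ', Equiv.Perm.mul_apply, ih]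
      show u * v⁻¹ * (v * _ * v⁻¹) = _
      rw [pow_succ' u, pow_succ' v]; group
  have hu : ∀ k : ℕ, u ^ k = ⟨1, k⟩ := fun k => by
    induction k with
    | zero => ext <;> simp
    | succ k ih => rw [pow_succ, ih]; ext <;> simp [u]
  have hv : ∀ k : ℕ, v ^ k = ⟨c ^ k, 0⟩ := fun k => by
    induction k with
    | zero => ext <;> simp
    | succ k ih => rw [pow_succ, ih]; ext <;> simp [v, pow_succ]
  have h2 := h1 (orderOf (aff (u * v⁻¹) (MulAut.conj v))) 1
  rw [pow_orderOf_eq_one, mul_one, Equiv.Perm.one_apply, eq_comm, mul_inv_eq_one, hu, hv] at h2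
  have h3 : p ∣ orderOf (aff (u * v⁻¹) (MulAut.conj v)) :=
    (ZMod.natCast_eq_zero_iff _ _).1 (congrArg A.b h2)
  have h4 : p - 1 ∣ orderOf (aff (u * v⁻¹) (MulAut.conj v)) := by
    have := orderOf_dvd_of_pow_eq_one (congrArg A.a h2).symm
    rwa [hc, Nat.card_eq_fintype_card, ZMod.card_units] at this
  rw [card_A]
  refine Nat.le_of_dvd (orderOf_pos _) (Nat.Coprime.mul_dvd_of_dvd_of_dvd ?_ h4 h3)
  have := (Fact.out : p.Prime).one_le
  exact (Nat.coprime_self_sub_left this).2 (Nat.coprime_one_left p)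

lemma comm [Fact p.Prime] :
    Nat.card {q : A p × A p // q.1 * q.2 = q.2 * q.1} ≤ Nat.card (A p) + Nat.card (A p) * p := by
  classical
  let f : {q : A p × A p // q.1 * q.2 = q.2 * q.1} → A p ⊕ A p × ZMod p := fun q =>
    if q.1.1 = 1 then Sum.inl q.1.2 else
      Sum.inr (q.1.1, if q.1.1.a = 1 then q.1.2.b else q.1.2.a)
  have hf : Function.Injective f := by
    rintro ⟨⟨x, y⟩, h⟩ ⟨⟨x', y'⟩, h'⟩ e
    simp only [f] at e
    have hb := congrArg A.b h
    have hb' := congrArg A.b h'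
    simp only [mul_b] at hb hb'
    by_cases hx : x = 1 <;> by_cases hx' : x' = 1 <;> simp only [hx, hx', if_true, if_false,
      Sum.inl.injEq, Sum.inr.injEq, Prod.mk.injEq, reduceCtorEq] at e
    · subst hx hx' e; rfl
    · obtain ⟨rfl, e⟩ := e
      congr 2
      by_cases ha : x.a = 1
      · rw [if_pos ha, if_pos ha] at e
        have hb0 : x.b ≠ 0 := fun h0 => hx (A.ext ha h0)
        rw [ha] at hb hb'
        refine A.ext (Units.ext (mul_right_cancel₀ hb0 ?_)) e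
        simp only [Units.val_one, one_mul] at hb hb'
        linear_combination hb' - hb
      · rw [if_neg ha, if_neg ha] at e
        have h1 : (x.a : ZMod p) - 1 ≠ 0 := fun h0 => ha (Units.ext (sub_eq_zero.1 h0))
        refine A.ext (Units.ext e) (mul_left_cancel₀ h1 ?_)
        rw [e] at hb
        linear_combination hb - hb'
  have := Nat.card_le_card_of_injective f hf
  rwa [Nat.card_sum, Nat.card_prod, Nat.card_zmod] at this

theorem result : ∀ ε : ℝ, 0 < ε → ∃ (G : Type) (_ : Group G) (_ : Finite G) (g : G)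
    (α : MulAut G), Nat.card G ≤ orderOf (aff g α) ∧ cp G < ε := by
  intro ε hε
  obtain ⟨n, hn⟩ := exists_nat_gt (2 / ε)
  obtain ⟨p, hp, hpp⟩ := Nat.exists_infinite_primes (n + 2)
  haveI := Fact.mk hpp
  obtain ⟨g, α, h⟩ := ord (p := p)
  refine ⟨A p, inferInstance, inferInstance, g, α, h, ?_⟩
  have h1 : (Nat.card {q : A p × A p // q.1 * q.2 = q.2 * q.1} : ℝ) ≤
      Nat.card (A p) + Nat.card (A p) * p := by exact_mod_cast comm
  have h2 : (Nat.card (A p) : ℝ) = (p - 1) * p := by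
    rw [card_A, Nat.cast_mul, Nat.cast_sub hpp.one_le, Nat.cast_one]
  have h3 : (n : ℝ) + 2 ≤ p := by exact_mod_cast hp
  have h4 : (0 : ℝ) ≤ n := Nat.cast_nonneg n
  rw [div_lt_iff₀ hε] at hn
  have h5 : (0 : ℝ) < (p - 1) * p := mul_pos (by linarith) (by linarith)
  unfold cp
  rw [div_lt_iff₀ (by rw [h2]; positivity)]
  refine h1.trans_lt ?_
  rw [h2]
  have h6 : 1 + (p : ℝ) < ε * ((p - 1) * p) := by
    have : 2 < (p - 1) * ε := by nlinarith
    nlinarith
  nlinarith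

end Pool.Agent.Results.MP_1004d8_al.Affine
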